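import Pool.Agent.Helper1.KE.Proj
import Pool.Agent.Helper26.KA.RelSH
import Pool.Agent.HC.PN1

set_option autoImplicit false
set_option linter.unusedSectionVars false
set_option linter.style.haveILetI false

/-!
Project KE (MP_0b9e0b_ag), KE-4: divisors of functions and the projections of relations.
-/

namespace Pool.Agent.Helper1.KE

open Pool.Agent.Helper16 Pool.Agent.Helper1.KA
open Pool.Agent.Helper1.KL (Var VarF Key key fld spec cyc relations rat CH coef Idx Centre term IsRel
  key_eq_iff fld_eq_range restr key_restr key_map)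

section gen

variable {F σ : Type} [Field F] {N : Type} [Field N] [Algebra F N]

theorem key_spec_alg {z : σ → Option N} (hz : ∀ j b, z j = some b → IsAlgebraic F b)
    (v : Place F N) : key F (spec v z) = key F z := by
  classical
  have halg : Algebra.IsAlgebraic F (fld F z) := by
    unfold fld
    rw [IntermediateField.isAlgebraic_adjoin_iff_isAlgebraic]
    rintro b ⟨j, hj⟩
    exact hz j b hj
  have htriv : ∀ b : fld F z, b ≠ 0 → v.val (algebraMap (fld F z) N b) = 1 := by
    intro b hb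
    refine v.val_eq_one_of_algebraic ((halg.isAlgebraic b).algebraMap) ?_
    rw [Ne, map_eq_zero]
    exact hb
  obtain ⟨ρ, hρ⟩ := Pool.Agent.HC.exists_resHomL (K := F) v (L := fld F z) (N := N) htriv
  have h1 : spec v z = fun j => (restr F z j).map ρ := by
    funext j
    cases hj : z j with
    | none =>
      unfold spec restr
      simp [hj]
    | some b =>
      have hb : b ∈ fld F z := Pool.Agent.Helper1.KL.mem_fld hj
      obtain ⟨h2, h3⟩ := hρ ⟨b, hb⟩
      unfold spec restr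
      simp only [hj, Option.bind_some, Option.pmap_some, Option.map_some]
      change (if b ∈ v.ring then some (v.res b) else none) = _
      rw [if_pos (show b ∈ v.ring from h2), h3]
      rfl
  rw [h1, key_map, key_restr]

theorem dk_superset {z : σ → Option N} {f : N} {S T : Finset (Place F N)} (hST : S ⊆ T)
    (hS : ∀ v, v ∈ S ↔ v.ord f ≠ 0) : dk z f S = dk z f T := by
  unfold dk
  refine Finset.sum_subset hST fun v _ hv => ?_
  rw [hS, not_not] at hv
  rw [hv, zero_mul, Int.cast_zero, Finsupp.single_zero]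

theorem ord_zpow (w : Place F N) (f : N) (n : ℤ) : w.ord (f ^ n) = n * w.ord f := by
  unfold Place.ord
  rw [map_zpow₀, WithZero.log_zpow, smul_eq_mul]
  ring

theorem dk_mul_zpow (z : σ → Option N) {f₁ f₂ : N} (hf₁ : f₁ ≠ 0) (hf₂ : f₂ ≠ 0) (m₁ m₂ : ℤ)
    (T : Finset (Place F N)) :
    dk z (f₁ ^ m₁ * f₂ ^ m₂) T = (m₁ : ℚ) • dk z f₁ T + (m₂ : ℚ) • dk z f₂ T := by
  unfold dk
  rw [Finset.smul_sum, Finset.smul_sum, ← Finset.sum_add_distrib]
  refine Finset.sum_congr rfl fun v _ => ?_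
  rw [v.ord_mul (zpow_ne_zero _ hf₁) (zpow_ne_zero _ hf₂), ord_zpow, ord_zpow,
    Finsupp.smul_single, Finsupp.smul_single, ← Finsupp.single_add]
  congr 1
  push_cast
  simp only [smul_eq_mul]
  ring

/-- A multiple of `D` is the divisor of a function. -/
def IsPr (z : σ → Option N) (D : Key F σ →₀ ℚ) : Prop :=
  ∃ (m : ℤ) (f : N) (S : Finset (Place F N)), m ≠ 0 ∧ f ≠ 0 ∧ (∀ v, v ∈ S ↔ v.ord f ≠ 0) ∧
    (m : ℚ) • D = dk z f S

theorem IsPr.zero (z : σ → Option N) : IsPr z (0 : Key F σ →₀ ℚ) :=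
  ⟨1, 1, ∅, one_ne_zero, one_ne_zero, fun v => by simp [v.ord_one], by simp [dk]⟩

theorem IsPr.add (hN : IsFunctionField F N) {z : σ → Option N} {D₁ D₂ : Key F σ →₀ ℚ}
    (h₁ : IsPr z D₁) (h₂ : IsPr z D₂) : IsPr z (D₁ + D₂) := by
  classical
  obtain ⟨m₁, f₁, S₁, hm₁, hf₁, hS₁, h₁⟩ := h₁
  obtain ⟨m₂, f₂, S₂, hm₂, hf₂, hS₂, h₂⟩ := h₂
  obtain ⟨S, hS, -⟩ := hN.product_formula (f₁ ^ m₂ * f₂ ^ m₁)
  refine ⟨m₁ * m₂, f₁ ^ m₂ * f₂ ^ m₁, S, mul_ne_zero hm₁ hm₂,
    mul_ne_zero (zpow_ne_zero _ hf₁) (zpow_ne_zero _ hf₂), hS, ?_⟩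
  have h3 : S₁ ⊆ S ∪ (S₁ ∪ S₂) := fun v hv => by simp [hv]
  have h4 : S₂ ⊆ S ∪ (S₁ ∪ S₂) := fun v hv => by simp [hv]
  have h5 : S ⊆ S ∪ (S₁ ∪ S₂) := fun v hv => by simp [hv]
  rw [dk_superset h5 hS, dk_mul_zpow z hf₁ hf₂, ← dk_superset h3 hS₁, ← dk_superset h4 hS₂, ← h₁,
    ← h₂, smul_add, smul_smul, smul_smul]
  push_cast
  rw [mul_comm (m₁ : ℚ) (m₂ : ℚ)]

theorem IsPr.smul (hN : IsFunctionField F N) {z : σ → Option N} {D : Key F σ →₀ ℚ} (r : ℚ)
    (h : IsPr z D) : IsPr z (r • D) := by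
  classical
  obtain ⟨m, f, S, hm, hf, hS, h⟩ := h
  obtain ⟨T, hT, -⟩ := hN.product_formula (f ^ r.num * (1 : N) ^ (0 : ℤ))
  refine ⟨m * r.den, f ^ r.num * (1 : N) ^ (0 : ℤ), T,
    mul_ne_zero hm (by exact_mod_cast r.den_nz),
    mul_ne_zero (zpow_ne_zero _ hf) (zpow_ne_zero _ one_ne_zero), hT, ?_⟩
  rw [dk_superset (Finset.subset_union_left (s₁ := T) (s₂ := S)) hT,
    dk_mul_zpow z hf one_ne_zero, ← dk_superset Finset.subset_union_right hS, ← h, smul_smul,
    smul_smul, Int.cast_zero, zero_smul, add_zero]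
  congr 1
  have h1 : (r.den : ℚ) * r = r.num := by
    rw [mul_comm]
    exact Rat.mul_den_eq_num r
  push_cast
  rw [← h1]
  ring

end gen

section XV

variable {k : Type} [Field k] {p a : ℕ} [Fact p.Prime] [CharP k p] {n : ℕ} {c : Fin n → k}

/-- The two coordinates with number `i`. -/
def gi (i : Fin n) : Fin 2 → Fin n ⊕ Fin n := ![Sum.inl i, Sum.inr i]

theorem alg_of_curve {M : Type} [Field M] [Algebra (RatFunc k) M] {u w : M} {γ : k}
    (h : w ^ p - w = algebraMap (RatFunc k) M RatFunc.X *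
      algebraMap (RatFunc k) M (RatFunc.C γ) * u ^ a + u) (hu : IsAlgebraic (RatFunc k) u) :
    IsAlgebraic (RatFunc k) w := by
  set E := algebraicClosure (RatFunc k) M with hE
  have huE : u ∈ E := mem_algebraicClosure_iff.2 hu
  have hr : w ^ p - w ∈ E := by
    rw [h]
    exact add_mem (mul_mem (mul_mem (E.algebraMap_mem _) (E.algebraMap_mem _)) (pow_mem huE _)) huE
  have hp : 1 < p := (Fact.out : p.Prime).one_lt
  have h1 : IsAlgebraic E w := by
    refine ⟨Polynomial.X ^ p - Polynomial.X - Polynomial.C (⟨w ^ p - w, hr⟩ : E), ?_, ?_⟩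
    · intro h0
      have h2 := congrArg (fun P : Polynomial E => P.coeff p) h0
      simp only [Polynomial.coeff_sub, Polynomial.coeff_X_pow, if_true, Polynomial.coeff_zero,
        Polynomial.coeff_X, Polynomial.coeff_C, if_neg hp.ne, if_neg (by omega : p ≠ 0)] at h2
      simp at h2
    · simp only [map_sub, map_pow, Polynomial.aeval_X, Polynomial.aeval_C]
      change w ^ p - w - (w ^ p - w) = 0
      ring
  haveI : Algebra.IsAlgebraic (RatFunc k) E := by infer_instance
  exact h1.restrictScalars (RatFunc k)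

theorem rel_isPr (ha : 2 ≤ a) (hc : ∀ i, c i ≠ 0) (hpush : PushStmt) (i : Fin n)
    {L N : Type} [Field L] [Field N] [Algebra k L] [Algebra L N] [Algebra k N]
    [Algebra (RatFunc k) N] [IsScalarTower k L N] [IsScalarTower k (RatFunc k) N] {x : L} {y : N}
    (hM : IsModel k p a (c i) x y) {D : Key (RatFunc k) (Fin n ⊕ Fin n) →₀ ℚ}
    (hD : D ∈ rat (XV p a c) (fun N _ _ z _ => XV p a c N z) 0) :
    IsPr (pt (algebraMap L N x) y) (Phi (gi i) D) := by
  have hN := hM.ff
  unfold rat at hD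
  induction hD using Submodule.span_induction with
  | mem D h =>
    obtain ⟨M, _, _, z, g, T, hMf, hz, hg, hT, hP⟩ := Phi_rel (V := XV p a c)
      (P := fun N _ _ z _ => XV p a c N z) (fun N _ _ z f h => h) (fun N _ _ z v h => Pool.Agent.Helper26.KA.XV_spec ha hc v h)
      (gi i) h
    rw [hP]
    rcases hz i with ⟨h1, h2⟩ | ⟨u, w, h1, h2, h3⟩
    · have h4 : z ∘ gi i = fun _ => none := by
        funext j
        revert j
        rw [Fin.forall_fin_two]
        exact ⟨h1, h2⟩
      rw [h4, dk_const hMf _ g T hT (κ := key (RatFunc k) (fun _ : Fin 2 => (none : Option M)))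
        fun v => key_spec_alg (fun j b hb => absurd hb (by simp)) v]
      exact IsPr.zero _
    · have h4 : z ∘ gi i = pt u w := by
        funext j
        revert j
        rw [Fin.forall_fin_two]
        exact ⟨h1, h2⟩
      rw [h4]
      by_cases hu : IsAlgebraic (RatFunc k) u
      · have hw := alg_of_curve h3 hu
        rw [dk_const hMf _ g T hT (κ := key (RatFunc k) (pt u w))
          fun v => key_spec_alg (fun j b hb => ?_) v]
        · exact IsPr.zero _
        · revert j
          rw [Fin.forall_fin_two]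
          refine ⟨fun hb => ?_, fun hb => ?_⟩
          · cases hb
            exact hu
          · cases hb
            exact hw
      · obtain ⟨f, S, hf, hS, h5⟩ := hpush k p a ha (c i) (hc i) L N x y hM M hMf u w h3 hu g hg
          T hT
        exact ⟨1, f, S, one_ne_zero, hf, hS, by rw [h5, Int.cast_one, one_smul]⟩
  | zero =>
    rw [map_zero]
    exact IsPr.zero _
  | add D₁ D₂ _ _ h₁ h₂ =>
    rw [map_add]
    exact h₁.add hN h₂
  | smul r D _ h =>
    rw [map_smul]
    exact h.smul hN r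

end XV

end Pool.Agent.Helper1.KE
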