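import Pool.Agent.Helper1.KA.Defs

set_option autoImplicit false

/-!
Project KE (MP_0b9e0b_ag): the lower bound for the Chow group of zero-cycles on the products of
the curves `y ^ p - y = t c x ^ a + x`. Auxiliary definitions and the statements of the modules.
-/

namespace Pool.Agent.Helper1.KE

open Pool.Agent.Helper16
open Pool.Agent.Helper1.KL (Var VarF Key key fld spec cyc relations rat CH coef Idx)

/-- The sum of `ord_v(f) [κ(v) : F] [z(v)]` over the places `v` in `S`, where `[z(v)]` is the key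
of the specialised point. -/
noncomputable def dk {F σ N : Type} [Field F] [Field N] [Algebra F N] (z : σ → Option N) (f : N)
    (S : Finset (Place F N)) : Key F σ →₀ ℚ :=
  ∑ v ∈ S, Finsupp.single (key F (spec v z)) ((v.ord f * (v.deg : ℤ) : ℤ) : ℚ)

/-- The point with coordinates `u`, `w`. -/
def pt {N : Type} (u w : N) : Fin 2 → Option N := ![some u, some w]

/-- The point at infinity. -/
def ptInf (N : Type) : Fin 2 → Option N := fun _ => none

/-- `N = L(y)`, `L = k(x)`, `y ^ p - y = t γ x ^ a + x`. -/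
structure IsModel (k : Type) [Field k] (p a : ℕ) (γ : k) {L N : Type} [Field L] [Field N]
    [Algebra k L] [Algebra L N] [Algebra k N] [Algebra (RatFunc k) N] [IsScalarTower k L N]
    [IsScalarTower k (RatFunc k) N] (x : L) (y : N) : Prop where
  ff : IsFunctionField (RatFunc k) N
  trx : Transcendental k x
  adjx : IntermediateField.adjoin k {x} = ⊤
  tr_y : Transcendental L y
  adjy : IntermediateField.adjoin L {y} = ⊤
  eq : y ^ p - y = algebraMap (RatFunc k) N RatFunc.X * algebraMap k N γ *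
    algebraMap L N x ^ a + algebraMap L N x

/-- Module KE-1: the model of `Helper49.BBSigma.sigma_inv` for the translation `y ↦ y + 1`. -/
def SigmaStmt : Prop :=
  ∀ (k : Type) [Field k] (p a : ℕ) [Fact p.Prime] [CharP k p], 2 ≤ a → ¬ p ∣ a →
  ∀ (γ : k), γ ≠ 0 →
  ∀ (L N : Type) [Field L] [Field N] [Algebra k L] [Algebra L N] [Algebra k N]
    [Algebra (RatFunc k) N] [IsScalarTower k L N] [IsScalarTower k (RatFunc k) N] (x : L) (y : N),
    IsModel k p a γ x y → ∀ (σ : N ≃ₐ[L] N), σ y = y + 1 → ∀ (f : N), f ≠ 0 →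
    (∀ w : Place (RatFunc k) N, (∀ b : L, b ≠ 0 → w.val (algebraMap L N b) = 1) → w.ord f = 0) →
    σ f = f

/-- Module KE-2: if the divisor of `f` is supported on the points `(0, c)` and the point at
infinity then the coefficients at the points `(0, c)` are equal. -/
def CoreStmt : Prop :=
  ∀ (k : Type) [Field k] (p a : ℕ) [Fact p.Prime] [CharP k p], 2 ≤ a → ¬ p ∣ a →
  ∀ (γ : k), γ ≠ 0 →
  ∀ (L N : Type) [Field L] [Field N] [Algebra k L] [Algebra L N] [Algebra k N]
    [Algebra (RatFunc k) N] [IsScalarTower k L N] [IsScalarTower k (RatFunc k) N] (x : L) (y : N),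
    IsModel k p a γ x y → ∀ (f : N), f ≠ 0 →
    ∀ (S : Finset (Place (RatFunc k) N)), (∀ v, v ∈ S ↔ v.ord f ≠ 0) →
    ∀ (α : ZMod p → ℚ) (β : ℚ),
    dk (pt (algebraMap L N x) y) f S =
      ∑ c : ZMod p, Finsupp.single (key (RatFunc k) (pt (0 : RatFunc k) c.cast)) (α c) +
      Finsupp.single (key (RatFunc k) (ptInf (RatFunc k))) β →
    ∀ c c' : ZMod p, α c = α c'

/-- Module KE-3a: there is a model. -/
def ModelStmt : Prop :=
  ∀ (k : Type) [Field k] (p a : ℕ) [Fact p.Prime] [CharP k p], 2 ≤ a → ∀ (γ : k), γ ≠ 0 →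
  ∃ (L N : Type) (_ : Field L) (_ : Field N) (_ : Algebra k L) (_ : Algebra L N)
    (_ : Algebra k N) (_ : Algebra (RatFunc k) N) (_ : IsScalarTower k L N)
    (_ : IsScalarTower k (RatFunc k) N) (x : L) (y : N), IsModel k p a γ x y

/-- Module KE-3b: a divisor on a function field which is mapped to the curve is the divisor of
a norm (`Helper94.BB.norm_formula`). -/
def PushStmt : Prop :=
  ∀ (k : Type) [Field k] (p a : ℕ) [Fact p.Prime] [CharP k p], 2 ≤ a →
  ∀ (γ : k), γ ≠ 0 →
  ∀ (L N : Type) [Field L] [Field N] [Algebra k L] [Algebra L N] [Algebra k N]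
    [Algebra (RatFunc k) N] [IsScalarTower k L N] [IsScalarTower k (RatFunc k) N] (x : L) (y : N),
    IsModel k p a γ x y →
  ∀ (M : Type) [Field M] [Algebra (RatFunc k) M], IsFunctionField (RatFunc k) M →
  ∀ (u w : M), w ^ p - w = algebraMap (RatFunc k) M RatFunc.X *
      algebraMap (RatFunc k) M (RatFunc.C γ) * u ^ a + u → Transcendental (RatFunc k) u →
  ∀ (g : M), g ≠ 0 → ∀ (T : Finset (Place (RatFunc k) M)), (∀ v, v ∈ T ↔ v.ord g ≠ 0) →
  ∃ (f : N) (S : Finset (Place (RatFunc k) N)), f ≠ 0 ∧ (∀ v, v ∈ S ↔ v.ord f ≠ 0) ∧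
    dk (pt u w) g T = dk (pt (algebraMap L N x) y) f S

end Pool.Agent.Helper1.KE
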