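import Pool.Agent.Helper94.KE.Push
import Pool.Agent.Helper49.KE.Sigma
import Pool.Agent.Helper1.KE.Lin

set_option autoImplicit false
set_option linter.unusedSectionVars false
set_option linter.style.haveILetI false

/-!
Project KE (MP_0b9e0b_ag), KE-2: functions on the curve whose divisor is supported on the points
`(0, c)` and the point at infinity.
-/

namespace Pool.Agent.Helper1.KE

open Pool.Agent.Helper16
open Pool.Agent.Helper1.KL (Var VarF Key key fld spec cyc relations rat CH coef Idx Centre term IsRel
  key_eq_iff fld_eq_range restr key_restr key_map exists_hom_of_key)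

section gen

variable {K σ : Type} [Field K] {N M : Type} [Field N] [Algebra K N] [Field M] [Algebra K M]

/-- Transport of a divisor by an isomorphism. -/
theorem dk_equiv (hN : IsFunctionField K N) (hM : IsFunctionField K M) (e : N ≃ₐ[K] M)
    (z : σ → Option N) (f : N) (hf : f ≠ 0) (T : Finset (Place K M))
    (hT : ∀ v, v ∈ T ↔ v.ord (e f) ≠ 0) (S : Finset (Place K N))
    (hS : ∀ v, v ∈ S ↔ v.ord f ≠ 0) : dk (fun j => (z j).map e) (e f) T = dk z f S := by
  letI algN : Algebra N M := e.toAlgHom.toRingHom.toAlgebra
  haveI st : IsScalarTower K N M := IsScalarTower.of_algebraMap_eq fun b => (e.commutes b).symm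
  have hmap : ∀ b : N, algebraMap N M b = e b := fun _ => rfl
  let l : N ≃ₗ[N] M :=
    { toFun := e
      map_add' := map_add e
      map_smul' := fun b c => by
        rw [smul_eq_mul, map_mul, RingHom.id_apply, Algebra.smul_def, hmap]
      invFun := e.symm
      left_inv := e.symm_apply_apply
      right_inv := e.apply_symm_apply }
  have hfin : Module.finrank N M = 1 := by
    rw [← l.finrank_eq, Module.finrank_self]
  haveI : FiniteDimensional N M := Module.Finite.equiv l
  have hnorm : Algebra.norm N (e f) = f := by
    rw [← hmap, Algebra.norm_algebraMap, hfin, pow_one]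
  have hef : e f ≠ 0 := by
    rw [Ne, map_eq_zero_iff e e.injective]
    exact hf
  have h1 := Pool.Agent.Helper94.KE.dk_norm hN hM z (e f) hef T hT S
    (fun v => by rw [hnorm]; exact hS v)
  rw [hnorm] at h1
  exact h1

/-- A point with the key of a rational point is this rational point. -/
theorem key_eq_const {z : σ → Option N} {z₀ : σ → Option K} :
    key K z = key K z₀ ↔ z = fun j => (z₀ j).map (algebraMap K N) := by
  constructor
  · intro h
    obtain ⟨φ, hφ⟩ := exists_hom_of_key h.symm
    funext j
    rw [← hφ j]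
    cases hj : z₀ j with
    | none =>
      have : restr K z₀ j = none := by
        unfold restr
        simp only [Option.pmap_eq_none_iff]
        exact hj
      rw [this]
      rfl
    | some b =>
      have : restr K z₀ j = some ⟨b, Pool.Agent.Helper1.KL.mem_fld hj⟩ := by
        unfold restr
        simp only [Option.pmap_eq_some_iff]
        exact ⟨b, Pool.Agent.Helper1.KL.mem_fld hj, hj, rfl⟩
      rw [this]
      simp only [Option.map_some]
      congr 1
      exact φ.commutes b
  · rintro rfl
    exact key_map (Algebra.ofId K N) z₀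

open scoped Classical in
theorem dk_apply (z : σ → Option N) (f : N) (S : Finset (Place K N)) (κ : Key K σ) :
    dk z f S κ = ∑ v ∈ S with key K (spec v z) = κ, ((v.ord f * (v.deg : ℤ) : ℤ) : ℚ) := by
  unfold dk
  rw [Finsupp.finsetSum_apply, Finset.sum_filter]
  refine Finset.sum_congr rfl fun v _ => ?_
  rw [Finsupp.single_apply]

end gen

section model

variable {k : Type} [Field k] {p a : ℕ} [Fact p.Prime] [CharP k p] {γ : k} {L N : Type}
  [Field L] [Field N] [Algebra k L] [Algebra L N] [Algebra k N] [Algebra (RatFunc k) N]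
  [IsScalarTower k L N] [IsScalarTower k (RatFunc k) N] {x : L} {y : N}

theorem charP_of_model (N : Type) [Field N] [Algebra k N] : CharP N p :=
  charP_of_injective_algebraMap (algebraMap k N).injective p

/-- The translation `y ↦ y + 1`. -/
theorem exists_sigma (hM : IsModel k p a γ x y) : ∃ σ : N ≃ₐ[L] N, σ y = y + 1 := by
  obtain ⟨e₁, he₁⟩ := Pool.Agent.Helper94.KE.exists_equiv y hM.tr_y hM.adjy
  have htr : Transcendental L (y + 1) := by
    intro h
    apply hM.tr_y
    have h1 := h.sub (isAlgebraic_one (R := L) (A := N))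
    rwa [add_sub_cancel_right] at h1
  have hadj : IntermediateField.adjoin L {y + 1} = ⊤ := by
    rw [eq_top_iff, ← hM.adjy, IntermediateField.adjoin_le_iff, Set.singleton_subset_iff]
    have h1 : y + 1 ∈ IntermediateField.adjoin L {y + 1} :=
      IntermediateField.subset_adjoin L _ rfl
    have h2 := sub_mem h1 (one_mem (IntermediateField.adjoin L {y + 1}))
    rwa [add_sub_cancel_right] at h2
  obtain ⟨e₂, he₂⟩ := Pool.Agent.Helper94.KE.exists_equiv (y + 1) htr hadj
  refine ⟨e₁.symm.trans e₂, ?_⟩
  rw [AlgEquiv.trans_apply, ← he₁, AlgEquiv.symm_apply_apply, he₂, he₁]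

theorem x_ne_zero (hM : IsModel k p a γ x y) : x ≠ 0 := by
  rintro h
  exact hM.trx (h ▸ isAlgebraic_zero)

/-- The translation is linear over `k(t)`. -/
theorem exists_sigmaK (hM : IsModel k p a γ x y) (hγ : γ ≠ 0) (σ : N ≃ₐ[L] N)
    (hσ : σ y = y + 1) : ∃ τ : N ≃ₐ[RatFunc k] N, ∀ f, τ f = σ f := by
  haveI : CharP N p := charP_of_model (k := k) N
  have hc0 : algebraMap k N γ * algebraMap L N x ^ a ≠ 0 := by
    refine mul_ne_zero ?_ (pow_ne_zero _ ?_)
    · rw [Ne, map_eq_zero]
      exact hγ
    · rw [Ne, map_eq_zero]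
      exact x_ne_zero hM
  have hc : algebraMap k N γ * algebraMap L N x ^ a = algebraMap L N (algebraMap k L γ * x ^ a) := by
    rw [map_mul, map_pow, ← IsScalarTower.algebraMap_apply k L N]
  have hσt : σ (algebraMap (RatFunc k) N RatFunc.X) = algebraMap (RatFunc k) N RatFunc.X := by
    have h1 := hM.eq
    rw [mul_assoc] at h1
    have h2 := congrArg σ h1
    rw [map_add, map_mul, map_sub, map_pow, hσ, σ.commutes, hc, σ.commutes, add_pow_char,
      one_pow] at h2
    rw [hc] at h1
    have h3 : algebraMap (RatFunc k) N RatFunc.X * algebraMap L N (algebraMap k L γ * x ^ a) =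
        σ (algebraMap (RatFunc k) N RatFunc.X) * algebraMap L N (algebraMap k L γ * x ^ a) := by
      linear_combination h2 - h1
    rw [← hc] at h3
    exact (mul_right_cancel₀ hc0 h3).symm
  have hσK : ∀ b : RatFunc k, σ (algebraMap (RatFunc k) N b) = algebraMap (RatFunc k) N b := by
    have h1 : (σ : N →+* N).comp (algebraMap (RatFunc k) N) = algebraMap (RatFunc k) N := by
      apply Pool.Agent.Helper94.KE.ratFunc_hom_ext
      · intro b
        rw [RingHom.comp_apply, ← IsScalarTower.algebraMap_apply k (RatFunc k) N,
          IsScalarTower.algebraMap_apply k L N]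
        exact σ.commutes _
      · exact hσt
    exact fun b => DFunLike.congr_fun h1 b
  exact ⟨AlgEquiv.ofRingEquiv (f := σ.toRingEquiv) hσK, fun f => rfl⟩

/-- The specialised point is `(0, c)`. -/
theorem key_spec_iff (u w : N) (v : Place (RatFunc k) N) (c : ZMod p) :
    key (RatFunc k) (spec v (pt u w)) = key (RatFunc k) (pt (0 : RatFunc k) (c.cast : RatFunc k)) ↔
      (u ∈ v.ring ∧ v.res u = 0) ∧ (w ∈ v.ring ∧ v.res w = (c.cast : v.resField)) := by
  classical
  haveI : CharP (RatFunc k) p := Pool.Agent.Helper1.KL.charP_ratFunc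
  haveI : CharP v.resField p := Pool.Agent.Helper1.KL.charP_alg (k := k) v.resField
  rw [key_eq_const, funext_iff, Fin.forall_fin_two]
  have h0 : spec v (pt u w) 0 = if u ∈ v.ring then some (v.res u) else none := rfl
  have h1 : spec v (pt u w) 1 = if w ∈ v.ring then some (v.res w) else none := rfl
  have h2 : (pt (0 : RatFunc k) (c.cast : RatFunc k) 0).map
      (algebraMap (RatFunc k) v.resField) = some 0 := by
    change some (algebraMap (RatFunc k) v.resField 0) = _
    rw [map_zero]
  have h3 : (pt (0 : RatFunc k) (c.cast : RatFunc k) 1).map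
      (algebraMap (RatFunc k) v.resField) = some (c.cast : v.resField) := by
    change some (algebraMap (RatFunc k) v.resField c.cast) = _
    congr 1
    have h4 : (algebraMap (RatFunc k) v.resField).comp (ZMod.castHom (dvd_refl p) (RatFunc k)) =
        ZMod.castHom (dvd_refl p) v.resField := Subsingleton.elim _ _
    exact DFunLike.congr_fun h4 c
  rw [h0, h1, h2, h3]
  refine and_congr ?_ ?_
  · split_ifs with h
    · rw [Option.some_inj]
      exact ⟨fun h' => ⟨h, h'⟩, fun h' => h'.2⟩
    · simp [h]
  · split_ifs with h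
    · rw [Option.some_inj]
      exact ⟨fun h' => ⟨h, h'⟩, fun h' => h'.2⟩
    · simp [h]

/-- The keys of the points `(0, c)` are distinct. -/
theorem key_pt_inj {c c' : ZMod p}
    (h : key (RatFunc k) (pt (0 : RatFunc k) (c.cast : RatFunc k)) =
      key (RatFunc k) (pt (0 : RatFunc k) (c'.cast : RatFunc k))) : c = c' := by
  haveI : CharP (RatFunc k) p := Pool.Agent.Helper1.KL.charP_ratFunc
  rw [key_eq_const] at h
  have h1 := congrFun h 1
  have h2 : (c.cast : RatFunc k) = (c'.cast : RatFunc k) := Option.some_inj.1 h1
  exact (ZMod.castHom (dvd_refl p) (RatFunc k)).injective h2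

/-- The specialised point at a place which is trivial on `L` is not `(0, c)`. -/
theorem key_ne_of_triv (hM : IsModel k p a γ x y) (v : Place (RatFunc k) N)
    (hv : ∀ b : L, b ≠ 0 → v.val (algebraMap L N b) = 1) (c : ZMod p) :
    key (RatFunc k) (spec v (pt (algebraMap L N x) y)) ≠
      key (RatFunc k) (pt (0 : RatFunc k) (c.cast : RatFunc k)) := by
  rw [Ne, key_spec_iff]
  rintro ⟨⟨h1, h2⟩, -⟩
  rw [v.res_eq_zero_iff h1, hv x (x_ne_zero hM)] at h2
  exact lt_irrefl _ h2

/-- The specialised point at a place which is trivial on `L` is not at infinity. -/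
theorem key_ne_inf_of_triv (hM : IsModel k p a γ x y) (v : Place (RatFunc k) N)
    (hv : ∀ b : L, b ≠ 0 → v.val (algebraMap L N b) = 1) :
    key (RatFunc k) (spec v (pt (algebraMap L N x) y)) ≠
      key (RatFunc k) (ptInf (RatFunc k)) := by
  classical
  rw [Ne, key_eq_const]
  intro h
  have h1 := congrFun h 0
  have h0 : spec v (pt (algebraMap L N x) y) 0 =
      if algebraMap L N x ∈ v.ring then some (v.res (algebraMap L N x)) else none := rfl
  rw [h0, if_pos (show algebraMap L N x ∈ v.ring from (hv x (x_ne_zero hM)).le)] at h1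
  exact absurd h1 (by simp [ptInf])

/-- Places with the same specialised point; module KE-2a. -/
def UniqueStmt : Prop :=
  ∀ (k : Type) [Field k] (p a : ℕ) [Fact p.Prime] [CharP k p], 2 ≤ a → ∀ (γ : k), γ ≠ 0 →
  ∀ (L N : Type) [Field L] [Field N] [Algebra k L] [Algebra L N] [Algebra k N]
    [Algebra (RatFunc k) N] [IsScalarTower k L N] [IsScalarTower k (RatFunc k) N] (x : L) (y : N),
    IsModel k p a γ x y → ∀ (v v' : Place (RatFunc k) N),
    (∀ b : L, b ≠ 0 → v.val (algebraMap L N b) = 1) →
    key (RatFunc k) (spec v (pt (algebraMap L N x) y)) =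
      key (RatFunc k) (spec v' (pt (algebraMap L N x) y)) → v = v'

end model

theorem core_of (huniq : UniqueStmt) : CoreStmt := by
  classical
  intro k _ p a _ _ ha hpa γ hγ L N _ _ _ _ _ _ _ _ x y hM f hf S hS α β hD
  have hNeZero : NeZero p := ⟨(Fact.out : p.Prime).ne_zero⟩
  have hN := hM.ff
  obtain ⟨σ, hσ⟩ := exists_sigma hM
  obtain ⟨τ, hτ⟩ := exists_sigmaK hM hγ σ hσ
  set z := pt (algebraMap L N x) y with hz
  -- the coefficients
  have hcoef : ∀ c : ZMod p,
      dk z f S (key (RatFunc k) (pt (0 : RatFunc k) (c.cast : RatFunc k))) = α c := by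
    intro c
    rw [hD, Finsupp.add_apply, Finsupp.finsetSum_apply, Finset.sum_eq_single c]
    · rw [Finsupp.single_eq_same, Finsupp.single_eq_of_ne, add_zero]
      intro h
      rw [key_eq_const] at h
      have h1 := congrFun h 0
      exact absurd h1 (by simp [pt, ptInf])
    · intro e _ he
      rw [Finsupp.single_eq_of_ne]
      intro h
      exact he (key_pt_inj h).symm
    · intro h
      exact absurd (Finset.mem_univ c) h
  -- invariance of the function
  have hinv : σ f = f := by
    refine Pool.Agent.Helper49.KE.sigma k p a ha hpa γ hγ L N x y hM σ hσ f hf fun w hw => ?_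
    by_contra hord
    have h1 : dk z f S (key (RatFunc k) (spec w z)) = 0 := by
      rw [hD, Finsupp.add_apply, Finsupp.finsetSum_apply, Finset.sum_eq_zero,
        Finsupp.single_eq_of_ne, add_zero]
      · exact key_ne_inf_of_triv hM w hw
      · intro c _
        rw [Finsupp.single_eq_of_ne]
        exact key_ne_of_triv hM w hw c
    rw [dk_apply, Finset.sum_eq_single w] at h1
    · have h2 : w.ord f * (w.deg : ℤ) = 0 := by exact_mod_cast h1
      have h3 := w.deg_pos hN
      rcases mul_eq_zero.1 h2 with h4 | h4
      · exact hord h4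
      · exact absurd h4 (by exact_mod_cast h3.ne')
    · intro v hv hvw
      rw [Finset.mem_filter] at hv
      exact absurd (huniq k p a ha γ hγ L N x y hM w v hw hv.2.symm).symm hvw
    · intro h
      rw [Finset.mem_filter, not_and] at h
      exact absurd rfl (h ((hS w).2 hord))
  have hτf : τ f = f := by rw [hτ, hinv]
  -- the translated divisor
  have htrans : dk (pt (algebraMap L N x) (y + 1)) f S = dk z f S := by
    have h1 := dk_equiv hN hN τ z f hf S (fun v => by rw [hτf]; exact hS v) S hS
    rw [hτf] at h1
    rw [← h1]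
    congr 1
    funext j
    revert j
    rw [Fin.forall_fin_two]
    constructor
    · change some (algebraMap L N x) = some (τ (algebraMap L N x))
      rw [hτ, σ.commutes]
    · change some (y + 1) = some (τ y)
      rw [hτ, hσ]
  have hstep : ∀ c : ZMod p, α (c + 1) = α c := by
    intro c
    rw [← hcoef, ← hcoef, ← htrans, dk_apply]
    conv_rhs => rw [htrans]
    rw [dk_apply]
    refine Finset.sum_congr ?_ fun _ _ => rfl
    refine Finset.filter_congr fun v _ => ?_
    rw [hz, key_spec_iff, key_spec_iff]
    haveI : CharP v.resField p := Pool.Agent.Helper1.KL.charP_alg (k := k) v.resField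
    refine and_congr Iff.rfl ?_
    constructor
    · rintro ⟨h1, h2⟩
      have h3 : y ∈ v.ring := by
        have := sub_mem h1 (one_mem v.ring)
        rwa [add_sub_cancel_right] at this
      refine ⟨h3, ?_⟩
      rw [v.res_add h3 (one_mem _), v.res_one, ZMod.cast_add (dvd_refl p),
        ZMod.cast_one (dvd_refl p)] at h2
      exact add_right_cancel h2
    · rintro ⟨h1, h2⟩
      refine ⟨add_mem h1 (one_mem _), ?_⟩
      rw [v.res_add h1 (one_mem _), v.res_one, ZMod.cast_add (dvd_refl p),
        ZMod.cast_one (dvd_refl p), h2]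
  have hall : ∀ m : ℕ, α (m : ZMod p) = α 0 := by
    intro m
    induction m with
    | zero => rw [Nat.cast_zero]
    | succ m ih => rw [Nat.cast_succ, hstep, ih]
  have hall' : ∀ c : ZMod p, α c = α 0 := by
    intro c
    rw [← ZMod.natCast_zmod_val c]
    exact hall _
  intro c c'
  rw [hall' c, hall' c']

end Pool.Agent.Helper1.KE
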