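import Pool.Agent.Helper1.KE.Lin

set_option autoImplicit false
set_option linter.unusedSectionVars false
set_option linter.style.haveILetI false

/-!
Project KE (MP_0b9e0b_ag), KE-4: the lower bound for the Chow group of zero-cycles.
-/

namespace Pool.Agent.Helper1.KE

open Pool.Agent.Helper16 Pool.Agent.Helper1.KA
open Pool.Agent.Helper1.KL (Var VarF Key key fld spec cyc relations rat CH coef Idx Centre term IsRel
  key_eq_iff fld_eq_range restr key_restr key_map)

section base

variable {F σ : Type} [Field F]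

/-- A rational point. -/
theorem finrank_fld_self (z : σ → Option F) : Module.finrank F (fld F z) = 1 := by
  have h1 : fld F z = ⊥ := by
    rw [eq_bot_iff]
    intro b _
    exact IntermediateField.mem_bot.2 ⟨b, rfl⟩
  rw [h1]
  exact IntermediateField.finrank_bot

theorem trdeg_fld_self (z : σ → Option F) : Algebra.trdeg F (fld F z) = 0 := by
  rw [trdeg_eq_zero_iff]
  infer_instance

theorem kdeg_self (z : σ → Option F) : kdeg (key F z) = 1 := by
  rw [kdeg_key z (trdeg_fld_self z), finrank_fld_self]

theorem Phi_self {τ : Type} (g : τ → σ) (z : σ → Option F) (q : ℚ) :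
    Phi g (Finsupp.single (key F z) q) = Finsupp.single (key F (z ∘ g)) q := by
  rw [Phi_single, kproj_key, kdeg_self, Nat.cast_one, one_mul]

theorem single_mem_cyc {V : Var F σ} {z : σ → Option F} (hz : V F z) (q : ℚ) :
    Finsupp.single (key F z) q ∈ cyc V 0 := by
  have h1 : Finsupp.single (key F z) (1 : ℚ) ∈ cyc V 0 :=
    Submodule.subset_span ⟨F, _, _, z, hz, by rw [trdeg_fld_self, Nat.cast_zero], rfl⟩
  have h2 := (cyc V 0).smul_mem q h1
  rwa [Finsupp.smul_single, smul_eq_mul, mul_one] at h2

end base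

section XV

variable {k : Type} [Field k] {p a : ℕ} [Fact p.Prime] [CharP k p] {n : ℕ} {c : Fin n → k}

/-- The point with `(0, e)` in the factor with number `i` and infinite coordinates elsewhere. -/
noncomputable def bp (k : Type) [Field k] {n : ℕ} (i : Fin n) {p : ℕ} (e : ZMod p) :
    Fin n ⊕ Fin n → Option (RatFunc k) :=
  Sum.elim (fun j => if j = i then some 0 else none) (fun j => if j = i then some e.cast else none)

/-- The point with infinite coordinates. -/
noncomputable def b0 (k : Type) [Field k] (n : ℕ) : Fin n ⊕ Fin n → Option (RatFunc k) :=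
  fun _ => none

theorem XV_b0 : XV p a c (RatFunc k) (b0 k n) := fun _ => Or.inl ⟨rfl, rfl⟩

theorem XV_bp (ha : 2 ≤ a) (i : Fin n) (e : ZMod p) : XV p a c (RatFunc k) (bp k i e) := by
  intro j
  by_cases hj : j = i
  · refine Or.inr ⟨0, e.cast, ?_, ?_, ?_⟩
    · unfold bp
      simp [hj]
    · unfold bp
      simp [hj]
    · have hch : CharP (RatFunc k) p := Pool.Agent.Helper1.KL.charP_ratFunc
      have h1 : (e.cast : RatFunc k) ^ p = e.cast := by
        have h2 : ((e ^ p : ZMod p).cast : RatFunc k) = (e.cast : RatFunc k) ^ p :=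
          ZMod.cast_pow (dvd_refl p) e p
        rw [← h2, ZMod.pow_card]
      rw [h1, sub_self, zero_pow (by omega), mul_zero, add_zero]
  · left
    constructor
    · unfold bp
      simp [hj]
    · unfold bp
      simp [hj]

theorem bp_gi (i : Fin n) (e : ZMod p) :
    bp k i e ∘ gi i = pt (0 : RatFunc k) (e.cast : RatFunc k) := by
  funext j
  revert j
  rw [Fin.forall_fin_two]
  constructor
  · simp [bp, gi, pt]
  · simp [bp, gi, pt]

theorem bp_gi_ne {i j : Fin n} (h : i ≠ j) (e : ZMod p) :
    bp k i e ∘ gi j = ptInf (RatFunc k) := by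
  funext l
  revert l
  rw [Fin.forall_fin_two]
  constructor
  · simp [bp, gi, ptInf, h.symm]
  · simp [bp, gi, ptInf, h.symm]

theorem b0_gi (i : Fin n) : b0 k n ∘ gi i = ptInf (RatFunc k) := rfl

/-- The indices of the basis. -/
abbrev Ix (p n : ℕ) : Type := Option (Fin n × {e : ZMod p // ¬ e = 0})

/-- The points of the basis. -/
noncomputable def bas (k : Type) [Field k] (p n : ℕ) : Ix p n → Fin n ⊕ Fin n → Option (RatFunc k)
  | none => b0 k n
  | some q => bp k q.1 q.2.1

theorem coef_zero (ha : 2 ≤ a) (hpa : ¬ p ∣ a) (hc : ∀ i, c i ≠ 0) (hcore : CoreStmt)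
    (hmodel : ModelStmt) (hpush : PushStmt) [NeZero p] (g : Ix p n → ℚ)
    (h : ∑ j, Finsupp.single (key (RatFunc k) (bas k p n j)) (g j) ∈
      rat (XV p a c) (fun N _ _ z _ => XV p a c N z) 0) : ∀ j, g j = 0 := by
  classical
  set D := ∑ j, Finsupp.single (key (RatFunc k) (bas k p n j)) (g j) with hD
  have hD' : D = Finsupp.single (key (RatFunc k) (b0 k n)) (g none) +
      ∑ i : Fin n, ∑ e : {e : ZMod p // ¬ e = 0},
        Finsupp.single (key (RatFunc k) (bp k i e.1)) (g (some (i, e))) := by
    rw [hD, Fintype.sum_option, Fintype.sum_prod_type]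
    rfl
  have hsome : ∀ (i : Fin n) (e : {e : ZMod p // ¬ e = 0}), g (some (i, e)) = 0 := by
    intro i e₀
    obtain ⟨L, N, _, _, _, _, _, _, _, _, x, y, hM⟩ := hmodel k p a ha (c i) (hc i)
    obtain ⟨m, f, S, hm, hf, hS, hP⟩ := rel_isPr ha hc hpush i hM h
    -- the projection of the cycle
    set β : ℚ := g none + ∑ j ∈ Finset.univ.erase i, ∑ e : {e : ZMod p // ¬ e = 0},
      g (some (j, e)) with hβ
    have h1 : Phi (gi i) D = (∑ e : {e : ZMod p // ¬ e = 0},
        Finsupp.single (key (RatFunc k) (pt (0 : RatFunc k) (e.1.cast : RatFunc k)))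
          (g (some (i, e)))) +
        Finsupp.single (key (RatFunc k) (ptInf (RatFunc k))) β := by
      rw [hD', map_add, Phi_self, b0_gi, map_sum, ← Finset.add_sum_erase _ _ (Finset.mem_univ i)]
      have h2 : ∑ j ∈ Finset.univ.erase i, Phi (gi i) (∑ e : {e : ZMod p // ¬ e = 0},
          Finsupp.single (key (RatFunc k) (bp k j e.1)) (g (some (j, e)))) =
          Finsupp.single (key (RatFunc k) (ptInf (RatFunc k)))
            (∑ j ∈ Finset.univ.erase i, ∑ e : {e : ZMod p // ¬ e = 0}, g (some (j, e))) := by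
        rw [Finsupp.single_finsetSum]
        refine Finset.sum_congr rfl fun j hj => ?_
        rw [map_sum, Finsupp.single_finsetSum]
        refine Finset.sum_congr rfl fun e _ => ?_
        rw [Phi_self, bp_gi_ne (Finset.ne_of_mem_erase hj)]
      have h3 : Phi (gi i) (∑ e : {e : ZMod p // ¬ e = 0},
          Finsupp.single (key (RatFunc k) (bp k i e.1)) (g (some (i, e)))) =
          ∑ e : {e : ZMod p // ¬ e = 0},
          Finsupp.single (key (RatFunc k) (pt (0 : RatFunc k) (e.1.cast : RatFunc k)))
            (g (some (i, e))) := by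
        rw [map_sum]
        refine Finset.sum_congr rfl fun e _ => ?_
        rw [Phi_self, bp_gi]
      rw [h2, h3, hβ, Finsupp.single_add]
      abel
    set α : ZMod p → ℚ := fun e => if h : e = 0 then 0 else (m : ℚ) * g (some (i, ⟨e, h⟩)) with hα
    have h4 : ∑ e : ZMod p, Finsupp.single (key (RatFunc k)
        (pt (0 : RatFunc k) (e.cast : RatFunc k))) (α e) =
        (m : ℚ) • ∑ e : {e : ZMod p // ¬ e = 0},
          Finsupp.single (key (RatFunc k) (pt (0 : RatFunc k) (e.1.cast : RatFunc k)))
            (g (some (i, e))) := by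
      have h5 : ∑ e : ZMod p, Finsupp.single (key (RatFunc k)
          (pt (0 : RatFunc k) (e.cast : RatFunc k))) (α e) =
          ∑ e ∈ Finset.univ.filter fun e : ZMod p => ¬ e = 0, Finsupp.single (key (RatFunc k)
          (pt (0 : RatFunc k) (e.cast : RatFunc k))) (α e) := by
        refine (Finset.sum_subset (Finset.filter_subset _ _) fun e _ he => ?_).symm
        rw [Finset.mem_filter, not_and, not_not] at he
        have he0 : e = 0 := he (Finset.mem_univ _)
        rw [hα]
        simp only [dif_pos he0, Finsupp.single_zero]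
      rw [h5, Finset.sum_subtype (p := fun e : ZMod p => ¬ e = 0) _
        (fun e => by rw [Finset.mem_filter]; simp), Finset.smul_sum]
      refine Finset.sum_congr rfl fun e _ => ?_
      rw [Finsupp.smul_single, smul_eq_mul, hα]
      simp only [dif_neg e.2]
    have h6 : dk (pt (algebraMap L N x) y) f S =
        ∑ e : ZMod p, Finsupp.single (key (RatFunc k) (pt (0 : RatFunc k) e.cast)) (α e) +
        Finsupp.single (key (RatFunc k) (ptInf (RatFunc k))) ((m : ℚ) * β) := by
      rw [← hP, h1, h4, smul_add, Finsupp.smul_single, smul_eq_mul]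
    have h7 := hcore k p a ha hpa (c i) (hc i) L N x y hM f hf S hS α _ h6 e₀.1 0
    rw [hα] at h7
    simp only [dif_pos, dif_neg e₀.2] at h7
    exact (mul_eq_zero.1 h7).resolve_left (by exact_mod_cast hm)
  intro j
  rcases j with _ | ⟨i, e⟩
  · have h1 : D = Finsupp.single (key (RatFunc k) (b0 k n)) (g none) := by
      rw [hD', Finset.sum_eq_zero, add_zero]
      intro i _
      refine Finset.sum_eq_zero fun e _ => ?_
      rw [hsome i e, Finsupp.single_zero]
    have h2 := tot_Phi_rat (V := XV p a c) (P := fun N _ _ z _ => XV p a c N z)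
      (fun N _ _ z f h => h) (fun N _ _ z v h => Pool.Agent.Helper26.KA.XV_spec ha hc v h) h
    rwa [h1, Phi_self, tot_single] at h2
  · exact hsome i e

/-- The lower bound. -/
theorem rank_ge_of (ha : 2 ≤ a) (hpa : ¬ p ∣ a) (hc : ∀ i, c i ≠ 0) (hcore : CoreStmt)
    (hmodel : ModelStmt) (hpush : PushStmt) :
    ((1 + n * (p - 1) : ℕ) : Cardinal.{0}) ≤ Module.rank ℚ (CHX p a c 0) := by
  classical
  have hNeZero : NeZero p := ⟨(Fact.out : p.Prime).ne_zero⟩
  have hmem : ∀ j : Ix p n, Finsupp.single (key (RatFunc k) (bas k p n j)) (1 : ℚ) ∈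
      cyc (XV p a c) 0 := by
    intro j
    rcases j with _ | ⟨i, e⟩
    · exact single_mem_cyc XV_b0 1
    · exact single_mem_cyc (XV_bp ha i e.1) 1
  set v : Ix p n → CHX p a c 0 := fun j => Submodule.Quotient.mk ⟨_, hmem j⟩ with hv
  have hli : LinearIndependent ℚ v := by
    rw [Fintype.linearIndependent_iff]
    intro g hg
    refine coef_zero ha hpa hc hcore hmodel hpush g ?_
    have h1 : ∑ j, g j • v j = Submodule.Quotient.mk (∑ j, g j • ⟨_, hmem j⟩) := by
      rw [hv, ← Submodule.mkQ_apply, map_sum]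
      refine Finset.sum_congr rfl fun j _ => ?_
      rw [map_smul, Submodule.mkQ_apply]
    rw [h1, Submodule.Quotient.mk_eq_zero] at hg
    replace hg : ((∑ j, g j • (⟨_, hmem j⟩ : cyc (XV p a c) 0) : cyc (XV p a c) 0) :
        Key (RatFunc k) (Fin n ⊕ Fin n) →₀ ℚ) ∈
        rat (XV p a c) (fun N _ _ z _ => XV p a c N z) 0 := hg
    rw [Submodule.coe_sum] at hg
    have h2 : ∀ j : Ix p n, ((g j • (⟨_, hmem j⟩ : cyc (XV p a c) 0) : cyc (XV p a c) 0) :
        Key (RatFunc k) (Fin n ⊕ Fin n) →₀ ℚ) =
        Finsupp.single (key (RatFunc k) (bas k p n j)) (g j) := by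
      intro j
      rw [Submodule.coe_smul, Finsupp.smul_single, smul_eq_mul, mul_one]
    rwa [Finset.sum_congr rfl fun j _ => h2 j] at hg
  have h1 := hli.cardinal_le_rank
  refine le_trans (le_of_eq ?_) h1
  rw [Cardinal.mk_fintype, Fintype.card_option, Fintype.card_prod, Fintype.card_fin,
    Fintype.card_subtype_compl, ZMod.card, Fintype.card_subtype_eq, add_comm]

end XV

end Pool.Agent.Helper1.KE
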