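import Pool.Agent.Helper1.KE.Final
import Pool.Agent.Helper26.KL.RelSH

set_option autoImplicit false
set_option linter.unusedSectionVars false

/-!
The Chow group of zero-cycles on a product of Kloosterman curves is not zero.
-/

namespace Pool.Agent.Helper1.KE

open Pool.Agent.Helper16
open Pool.Agent.Helper1.KL (Var VarF Key key fld spec cyc relations rat CH coef Idx Centre term IsRel
  key_eq_iff fld_eq_range restr key_restr key_map)

/-- The degree of zero-cycles is not zero. -/
theorem rank_ge_one {F σ : Type} [Field F] {V : Var F σ} {P : VarF F σ}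
    (hPV : ∀ (N : Type) [Field N] [Algebra F N] (z : σ → Option N) (f : N), P N z f → V N z)
    (hV : ∀ (N : Type) [Field N] [Algebra F N] (z : σ → Option N) (v : Place F N), V N z →
      V v.resField (spec v z)) {z : σ → Option F} (hz : V F z) :
    1 ≤ Module.rank ℚ (CH V P 0) := by
  rw [Cardinal.one_le_iff_ne_zero, Ne, rank_zero_iff_forall_zero]
  intro h
  have h1 := h (Submodule.Quotient.mk ⟨_, single_mem_cyc hz 1⟩)
  rw [Submodule.Quotient.mk_eq_zero] at h1
  have h2 := tot_Phi_rat hPV hV (c := Finsupp.single (key F z) 1) h1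
  rw [Phi_self, tot_single] at h2
  exact one_ne_zero h2

theorem kl_rank_ge {k : Type} [Field k] {p : ℕ} [Fact p.Prime] {n : ℕ} (b : Fin n → k)
    : 1 ≤ Module.rank ℚ (Pool.Agent.Helper1.KL.CHX p b 0) :=
  rank_ge_one (V := Pool.Agent.Helper1.KL.XV p b)
    (P := fun N _ _ z _ => Pool.Agent.Helper1.KL.XV p b N z)
    (fun _ _ _ _ _ h => h) (fun _ _ _ _ v h => Pool.Agent.Helper26.KL.XV_spec v h)
    (z := fun _ => none) (fun _ => Or.inl ⟨rfl, Or.inl rfl⟩)

end Pool.Agent.Helper1.KE
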