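import Pool.Agent.Helper1.KE.Core
import Pool.Agent.Helper1.KE.Final
import Pool.Agent.Helper94.KE.Unique
import Pool.Agent.Helper94.KE.Model
import Pool.Agent.Helper17.KA.Zero
import Pool.Agent.Helper1.KA.AMain

set_option autoImplicit false

/-!
Project KE (MP_0b9e0b_ag): the Chow group of zero-cycles on the products of the curves
`y ^ p - y = t c x ^ a + x`.
-/

namespace Pool.Agent.Helper1.KE

open Pool.Agent.Helper1.KA

theorem core : CoreStmt :=
  core_of fun _ _ _ _ _ _ _ _ _ _ _ _ _ _ _ _ _ _ _ _ _ hM v v' hv h =>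
    Pool.Agent.Helper94.KE.place_unique hM v v' hv h

/-- The rank of the group of cycles of dimension `0` on `X`. -/
theorem rank_zero_eq (k : Type) [Field k] (p a : ℕ) [Fact p.Prime] [CharP k p] (ha : 2 ≤ a)
    (hpa : ¬ p ∣ a) (n : ℕ) (c : Fin n → k) (hc : ∀ i, c i ≠ 0) :
    Module.rank ℚ (CHX p a c 0) = ((1 + n * (p - 1) : ℕ) : Cardinal.{0}) :=
  le_antisymm (Pool.Agent.Helper17.KA.rank_zero k p a n c (by omega) (ka_main k p a ha n c hc 0))
    (rank_ge_of ha hpa hc core Pool.Agent.Helper94.KE.model Pool.Agent.Helper94.KE.push)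

end Pool.Agent.Helper1.KE
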