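import Pool.Agent.Helper1.KE.Defs
import Pool.Agent.Helper1.KL.General
import Pool.Agent.Helper16.FF8

set_option autoImplicit false
set_option linter.unusedSectionVars false

/-!
Project KE (MP_0b9e0b_ag), KE-4: projections of zero-cycles.
-/

namespace Pool.Agent.Helper1.KE

open Pool.Agent.Helper16
open Pool.Agent.Helper1.KL (Var VarF Key key fld spec cyc relations rat CH coef Idx Centre term IsRel
  key_eq_iff fld_eq_range)

section gen

variable {F σ τ : Type} [Field F] {N : Type} [Field N] [Algebra F N]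

/-- The degree of a closed point. -/
noncomputable def kdeg (κ : Key F σ) : ℕ := Module.finrank F (MvPolynomial σ F ⧸ κ.2)

/-- The image of a point under the projection to some of the coordinates. -/
noncomputable def kproj (g : τ → σ) (κ : Key F σ) : Key F τ :=
  ({j | g j ∈ κ.1}, κ.2.comap (MvPolynomial.rename g : MvPolynomial τ F →ₐ[F] MvPolynomial σ F))

theorem kproj_key (g : τ → σ) (z : σ → Option N) : kproj g (key F z) = key F (z ∘ g) := by
  unfold kproj key
  refine Prod.ext rfl ?_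
  ext P
  rw [Ideal.mem_comap, RingHom.mem_ker, RingHom.mem_ker]
  rw [MvPolynomial.aeval_rename]
  rfl

theorem isAlgebraic_of_trdeg {E : IntermediateField F N} (h : Algebra.trdeg F E = 0) :
    Algebra.IsAlgebraic F E := by
  rwa [← trdeg_eq_zero_iff]

theorem kdeg_key (z : σ → Option N) (h : Algebra.trdeg F (fld F z) = 0) :
    kdeg (key F z) = Module.finrank F (fld F z) := by
  unfold kdeg key
  set φ : MvPolynomial σ F →ₐ[F] N := MvPolynomial.aeval fun j => (z j).getD 0 with hφ
  have h1 : Module.finrank F (MvPolynomial σ F ⧸ RingHom.ker φ) = Module.finrank F φ.range :=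
    (Ideal.quotientKerEquivRange φ).toLinearEquiv.finrank_eq
  have h2 : φ.range = (fld F z).toSubalgebra := by
    rw [hφ, ← Algebra.adjoin_range_eq_range_aeval, fld_eq_range]
    refine (IntermediateField.adjoin_toSubalgebra_of_isAlgebraic ?_).symm
    rintro _ ⟨j, rfl⟩
    have h3 : (z j).getD 0 ∈ fld F z := Pool.Agent.Helper1.KL.getD_mem_fld z j
    have h4 := (isAlgebraic_of_trdeg h).isAlgebraic (⟨_, h3⟩ : fld F z)
    exact h4.algHom (fld F z).val
  rw [h1, h2]
  rfl

/-- The projection of cycles of dimension zero. -/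
noncomputable def Phi (g : τ → σ) : (Key F σ →₀ ℚ) →ₗ[ℚ] (Key F τ →₀ ℚ) :=
  Finsupp.lsum ℚ fun κ => (kdeg κ : ℚ) • Finsupp.lsingle (kproj g κ)

theorem Phi_single (g : τ → σ) (κ : Key F σ) (q : ℚ) :
    Phi g (Finsupp.single κ q) = Finsupp.single (kproj g κ) (kdeg κ * q) := by
  unfold Phi
  rw [Finsupp.lsum_single, LinearMap.smul_apply, Finsupp.lsingle_apply, Finsupp.smul_single,
    smul_eq_mul]

theorem trdeg_spec (hN : IsFunctionField F N) (z : σ → Option N) (v : Place F N) :
    Algebra.trdeg F (fld F (spec v z)) = (0 : ℕ) := by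
  haveI := v.finite_resField hN
  rw [Nat.cast_zero, trdeg_eq_zero_iff]
  infer_instance

theorem Phi_term (hN : IsFunctionField F N) (g : τ → σ) (z : σ → Option N) (f : N)
    (v : Place F N) :
    Phi g (term z f v) =
      Finsupp.single (key F (spec v (z ∘ g))) ((v.ord f * (v.deg : ℤ) : ℤ) : ℚ) := by
  haveI := v.finite_resField hN
  unfold term
  rw [Phi_single, kproj_key, kdeg_key _ (by exact_mod_cast trdeg_spec hN z v)]
  have h1 : Module.finrank F (fld F (spec v z)) * Module.finrank (fld F (spec v z)) v.resField =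
      v.deg := Module.finrank_mul_finrank F (fld F (spec v z)) v.resField
  have h2 : spec v z ∘ g = spec v (z ∘ g) := rfl
  rw [h2, ← h1]
  congr 1
  push_cast
  ring

/-- The projection of a relation. -/
theorem Phi_rel {V : Var F σ} {P : VarF F σ} (hPV : ∀ (N : Type) [Field N] [Algebra F N]
    (z : σ → Option N) (f : N), P N z f → V N z)
    (hV : ∀ (N : Type) [Field N] [Algebra F N] (z : σ → Option N) (v : Place F N), V N z →
      V v.resField (spec v z))
    (g : τ → σ) {c : Key F σ →₀ ℚ} (hc : c ∈ relations V P 0) :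
    ∃ (N : Type) (_ : Field N) (_ : Algebra F N) (z : σ → Option N) (f : N)
      (S : Finset (Place F N)), IsFunctionField F N ∧ V N z ∧ f ≠ 0 ∧
        (∀ v, v ∈ S ↔ v.ord f ≠ 0) ∧ Phi g c = dk (z ∘ g) f S := by
  obtain ⟨N, _, _, z, f, S, h1, h2, h3, h4, h5, h6⟩ := hc
  have hN : IsFunctionField F N := ⟨h1, by rw [h2]; simp⟩
  refine ⟨N, _, _, z, f, S, hN, hPV N z f h3, h4, fun v => ?_, ?_⟩
  · rw [h5]
    exact ⟨fun h => h.1, fun h => ⟨h, hV N z v (hPV N z f h3), trdeg_spec hN z v⟩⟩
  · rw [h6, map_sum]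
    unfold dk
    exact Finset.sum_congr rfl fun v _ => Phi_term hN g z f v

/-- The sum of the coefficients. -/
noncomputable def tot : (Key F σ →₀ ℚ) →ₗ[ℚ] ℚ := Finsupp.lsum ℚ fun _ => LinearMap.id

theorem tot_single (κ : Key F σ) (q : ℚ) : tot (Finsupp.single κ q) = q := by
  unfold tot
  rw [Finsupp.lsum_single]
  rfl

theorem sum_ord_deg (hN : IsFunctionField F N) (f : N) (S : Finset (Place F N))
    (hS : ∀ v, v ∈ S ↔ v.ord f ≠ 0) : ∑ v ∈ S, v.ord f * (v.deg : ℤ) = 0 := by
  obtain ⟨T, h1, h2⟩ := hN.product_formula f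
  have h3 : S = T := by
    ext v
    rw [hS, h1]
  rw [h3, h2]

theorem tot_dk (hN : IsFunctionField F N) (z : σ → Option N) (f : N) (S : Finset (Place F N))
    (hS : ∀ v, v ∈ S ↔ v.ord f ≠ 0) : tot (dk z f S) = 0 := by
  unfold dk
  rw [map_sum]
  have h1 : ∀ v ∈ S, tot (Finsupp.single (key F (spec v z)) ((v.ord f * (v.deg : ℤ) : ℤ) : ℚ)) =
      ((v.ord f * (v.deg : ℤ) : ℤ) : ℚ) := fun v _ => tot_single _ _
  rw [Finset.sum_congr rfl h1, ← Int.cast_sum, sum_ord_deg hN f S hS, Int.cast_zero]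

/-- The divisor of a function is zero on a constant point. -/
theorem dk_const (hN : IsFunctionField F N) (z : σ → Option N) (f : N) (S : Finset (Place F N))
    (hS : ∀ v, v ∈ S ↔ v.ord f ≠ 0) {κ : Key F σ} (h : ∀ v : Place F N, key F (spec v z) = κ) :
    dk z f S = 0 := by
  unfold dk
  have h1 : ∀ v ∈ S, Finsupp.single (key F (spec v z)) ((v.ord f * (v.deg : ℤ) : ℤ) : ℚ) =
      Finsupp.single κ ((v.ord f * (v.deg : ℤ) : ℤ) : ℚ) := fun v _ => by rw [h v]
  rw [Finset.sum_congr rfl h1]
  have h2 := congrArg (fun q : ℤ => Finsupp.single κ (q : ℚ)) (sum_ord_deg hN f S hS)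
  simp only [Int.cast_sum, Int.cast_zero, Finsupp.single_zero] at h2
  rw [← h2, Finsupp.single_finsetSum]

/-- The sum of the coefficients, with degrees, vanishes on relations. -/
theorem tot_Phi_rat {V : Var F σ} {P : VarF F σ} (hPV : ∀ (N : Type) [Field N] [Algebra F N]
    (z : σ → Option N) (f : N), P N z f → V N z)
    (hV : ∀ (N : Type) [Field N] [Algebra F N] (z : σ → Option N) (v : Place F N), V N z →
      V v.resField (spec v z)) {c : Key F σ →₀ ℚ} (hc : c ∈ rat V P 0) :
    tot (Phi (id : σ → σ) c) = 0 := by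
  have h1 : rat V P 0 ≤ LinearMap.ker (tot ∘ₗ Phi (id : σ → σ)) := by
    unfold rat
    rw [Submodule.span_le]
    intro c hc
    obtain ⟨N, _, _, z, f, S, hN, -, -, hS, h⟩ := Phi_rel hPV hV (id : σ → σ) hc
    rw [SetLike.mem_coe, LinearMap.mem_ker, LinearMap.comp_apply, h, tot_dk hN _ _ _ hS]
  exact LinearMap.mem_ker.1 (h1 hc)

end gen

end Pool.Agent.Helper1.KE
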